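import Pool.Agent.TMX.Stmts2

/-!
# TMX, row CMIN: the minimum of `g` on the middle part of the ball of a bad peak
-/

set_option autoImplicit false

namespace Pool.Agent.TMX.H8

open Finset Pool.Agent.TMX
open Pool.Agent.Helper51_Max (I IsMax)

theorem I_Ico (N v r : ℕ) : I N v r = Ico (v - r) (min (v + r) N + 1) := by
  ext t
  unfold Pool.Agent.Helper51_Max.I
  rw [mem_Icc, mem_Ico]
  omega

theorem half (g : ℕ → ℝ) (s p q t : ℕ) (h m m' u : ℝ) (hsp : s ≤ p) (hpq : p < q) (hqt : q ≤ t)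
    (h1 : h * ((t : ℝ) - s) = ∑ i ∈ Ico s t, g i) (h2 : ∑ i ∈ Ico s q, g i ≤ m * ((q : ℝ) - s))
    (h3 : ∑ i ∈ Ico p t, g i ≤ m' * ((t : ℝ) - p)) (hm : m < h) (hm' : m' < h)
    (hu : ∀ i, p ≤ i → i < q → u ≤ g i) : u ≤ m ∧ u ≤ m' := by
  have c1 := sum_Ico_consecutive g (hsp.trans hpq.le) hqt
  have c2 := sum_Ico_consecutive g hpq.le hqt
  have c3 := sum_Ico_consecutive g hsp hpq.le
  have c4 := sum_Ico_consecutive g hsp (hpq.le.trans hqt)
  have hC : u * ((q : ℝ) - p) ≤ ∑ i ∈ Ico p q, g i := by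
    have := card_nsmul_le_sum (Ico p q) g u (fun i hi => by
      rw [mem_Ico] at hi
      exact hu i hi.1 hi.2)
    rw [Nat.card_Ico, nsmul_eq_mul, Nat.cast_sub hpq.le] at this
    linarith
  have hsp' : (s : ℝ) ≤ p := by exact_mod_cast hsp
  have hpq' : (p : ℝ) < q := by exact_mod_cast hpq
  have hqt' : (q : ℝ) ≤ t := by exact_mod_cast hqt
  have e1 : 0 ≤ (h - m) * ((q : ℝ) - s) := mul_nonneg (by linarith) (by linarith)
  have e2 : 0 ≤ (h - m') * ((t : ℝ) - p) := mul_nonneg (by linarith) (by linarith)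
  constructor
  · by_contra hcon
    push Not at hcon
    have e3 : 0 < (u - m) * ((q : ℝ) - p) := mul_pos (by linarith) (by linarith)
    have e4 : 0 ≤ (h - m) * ((p : ℝ) - s) := mul_nonneg (by linarith) (by linarith)
    nlinarith
  · by_contra hcon
    push Not at hcon
    have e3 : 0 < (u - m') * ((q : ℝ) - p) := mul_pos (by linarith) (by linarith)
    have e4 : 0 ≤ (h - m') * ((t : ℝ) - q) := mul_nonneg (by linarith) (by linarith)
    nlinarith

/-- **CMIN** -/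
theorem cMin : CMin := by
  intro N g M hM y z z' r hG
  obtain ⟨hyz, hzz, hrz, hrN, hy, hz, hC, hopt, hMy, hMz⟩ := hG
  obtain ⟨a, ha⟩ : ∃ a, a + z + r = 2 * z' := ⟨2 * z' - z - r, by omega⟩
  obtain ⟨b, hb⟩ : ∃ b, b + z = 2 * y + r := ⟨2 * y + r - z, by omega⟩
  have hab : a ≤ b := by omega
  obtain ⟨c, hc, hcmin⟩ := exists_min_image (Icc a b) g ⟨a, by rw [mem_Icc]; omega⟩
  rw [mem_Icc] at hc
  have hmin : ∀ i, 2 * z' ≤ i + z + r → i + z ≤ 2 * y + r → g c ≤ g i := by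
    intro i h1 h2
    exact hcmin i (by rw [mem_Icc]; omega)
  obtain ⟨s, hs⟩ : ∃ s, s + r = z := ⟨z - r, by omega⟩
  have eB : I N z r = Ico s (z + r + 1) := by
    rw [I_Ico]; congr 1 <;> omega
  have eT : I N y (y + r - z) = Ico s (b + 1) := by
    rw [I_Ico]; congr 1 <;> omega
  have eT' : I N z' (z + r - z') = Ico a (z + r + 1) := by
    rw [I_Ico]; congr 1 <;> omega
  have h2 := hM.le y (by omega) (y + r - z)
  have h3 := hM.le z' (by omega) (z + r - z')
  rw [eB, Nat.card_Ico, Nat.cast_sub (by omega)] at hopt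
  rw [eT, Nat.card_Ico, Nat.cast_sub (by omega)] at h2
  rw [eT', Nat.card_Ico, Nat.cast_sub (by omega)] at h3
  obtain ⟨k1, k2⟩ := half g s a (b + 1) (z + r + 1) (M z) (M y) (M z') (g c) (by omega) (by omega)
    (by omega) hopt h2 h3 hMy hMz (fun i h4 h5 => hmin i (by omega) (by omega))
  exact ⟨c, by omega, by omega, k1, k2, hmin⟩

end Pool.Agent.TMX.H8
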