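import Pool.Agent.TMX.Stmts4

set_option autoImplicit false

namespace Pool.Agent.TMX.H8

open Finset
open Pool.Agent.TMX
open Pool.Agent.Helper51_Max (I IsMax)
open Pool.Agent.Helper37_EM (var)

/-- A maximum point on an interval. -/
theorem oneA_max (g : ℕ → ℝ) (a b : ℕ) (h : a ≤ b) :
    ∃ m, a ≤ m ∧ m ≤ b ∧ ∀ j, a ≤ j → j ≤ b → g j ≤ g m := by
  obtain ⟨m, hm, hmax⟩ := Finset.exists_max_image (Icc a b) g ⟨a, Finset.mem_Icc.2 ⟨le_rfl, h⟩⟩
  rw [Finset.mem_Icc] at hm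
  exact ⟨m, hm.1, hm.2, fun j h1 h2 => hmax j (Finset.mem_Icc.2 ⟨h1, h2⟩)⟩

/-- The interior maximum point. -/
theorem oneA_int (M : ℕ → ℝ) (a b c : ℕ) (hab : a < b) (hbc : b < c) (h1 : M a < M b)
    (h2 : M c < M b) :
    ∃ m, a < m ∧ m < c ∧ M a < M m ∧ M c < M m ∧ ∀ j, a ≤ j → j ≤ c → M j ≤ M m := by
  obtain ⟨m, hm1, hm2, hm3⟩ := oneA_max M a c (by omega)
  have hb := hm3 b hab.le hbc.le
  have ha' : M a < M m := lt_of_lt_of_le h1 hb
  have hc' : M c < M m := lt_of_lt_of_le h2 hb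
  refine ⟨m, ?_, ?_, ha', hc', hm3⟩
  · rcases Nat.lt_or_ge a m with h | h
    · exact h
    · have : m = a := by omega
      rw [this] at ha'
      exact absurd ha' (lt_irrefl _)
  · rcases Nat.lt_or_ge m c with h | h
    · exact h
    · have : m = c := by omega
      rw [this] at hc'
      exact absurd hc' (lt_irrefl _)

/-- Row OneA. -/
theorem oneA : OneA := by
  intro hB N g M hM hone p p' hgap a b c d e hpa hab hbc hcd hde hep h1 h2 h3 h4
  have hp'N : p' ≤ N := hgap.right.1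
  obtain ⟨b', hab', hbc', hb1, hb2, hb3⟩ := oneA_int M a b c hab hbc h1 h2
  obtain ⟨d', hcd', hde', hd1, hd2, hd3⟩ := oneA_int M c d e hcd hde h3 h4
  have gb := hB N g M hM p p' a b' c hgap hpa hab' hbc' (by omega) hb1 hb2 hb3
  have gd := hB N g M hM p p' c d' e hgap (by omega) hcd' hde' hep hd1 hd2 hd3
  exact hone a b' c c d' e hab' hbc' le_rfl hcd' hde' (by omega) hb1 hb2 hd1 hd2
    (fun i h5 h6 => ⟨hb3 i h5 h6, gb i h5 h6⟩) (fun i h5 h6 => ⟨hd3 i h5 h6, gd i h5 h6⟩)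

end Pool.Agent.TMX.H8
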